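import Pool.Agent.H547.V1.Stm

set_option autoImplicit false

/-! # SUN35 C21 (subtask by helper284) -/

namespace Pool.Agent.H284.SUN35

open Finset Pool.Agent.R439.PL Pool.Agent.H547.V1

/-- the summand of the transformed sum, `N = M + 1` -/
def ff (M i : ℕ) : ℚ :=
  4 * ((M : ℚ) + 1) * (((2 * (M + 1)).choose (M + 1) : ℕ) : ℚ) * ((((M + i).choose i : ℕ) : ℚ)) ^ 2

/-- the WZ certificate -/
def gg (M i : ℕ) : ℚ :=
  (i : ℚ) ^ 2 * (2 * i + 3 * ((M : ℚ) + 1)) * ff M i / ((M : ℚ) + 1) ^ 3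

lemma b_right (M i : ℕ) : ((i : ℚ) + 1) * (((M + (i + 1)).choose (i + 1) : ℕ) : ℚ) =
    ((M : ℚ) + 1 + i) * (((M + i).choose i : ℕ) : ℚ) := by
  have h := Nat.add_one_mul_choose_eq (M + i) i
  have h1 : (((M + i + 1) * (M + i).choose i : ℕ) : ℚ) =
      (((M + i + 1).choose (i + 1) * (i + 1) : ℕ) : ℚ) := by rw [h]
  push_cast at h1
  have e : M + (i + 1) = M + i + 1 := rfl
  rw [e]
  linarith

lemma b_up (M i : ℕ) : ((M : ℚ) + 1) * (((M + 1 + i).choose i : ℕ) : ℚ) =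
    ((M : ℚ) + 1 + i) * (((M + i).choose i : ℕ) : ℚ) := by
  have h := Nat.choose_mul_succ_eq (M + i) i
  have e : M + i + 1 - i = M + 1 := by omega
  rw [e] at h
  have h1 : (((M + i).choose i * (M + i + 1) : ℕ) : ℚ) =
      (((M + i + 1).choose i * (M + 1) : ℕ) : ℚ) := by rw [h]
  push_cast at h1
  have e3 : M + 1 + i = M + i + 1 := by omega
  rw [e3]
  linarith

lemma c_up (N : ℕ) : ((N : ℚ) + 1) * (((2 * (N + 1)).choose (N + 1) : ℕ) : ℚ) =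
    2 * (2 * N + 1) * (((2 * N).choose N : ℕ) : ℚ) := by
  have h := Nat.succ_mul_centralBinom_succ N
  rw [Nat.centralBinom_eq_two_mul_choose, Nat.centralBinom_eq_two_mul_choose] at h
  exact_mod_cast h

lemma wz (M i : ℕ) : ff (M + 1) i - ff M i = gg M (i + 1) - gg M i := by
  have h1 := b_right M i
  have h2 := b_up M i
  have h3 := c_up (M + 1)
  have hM : ((M : ℚ) + 1) ≠ 0 := by positivity
  obtain ⟨b, hb⟩ : ∃ b : ℚ, b = (((M + i).choose i : ℕ) : ℚ) := ⟨_, rfl⟩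
  obtain ⟨b1, hb1⟩ : ∃ b : ℚ, b = (((M + (i + 1)).choose (i + 1) : ℕ) : ℚ) := ⟨_, rfl⟩
  obtain ⟨b2, hb2⟩ : ∃ b : ℚ, b = (((M + 1 + i).choose i : ℕ) : ℚ) := ⟨_, rfl⟩
  obtain ⟨c, hc⟩ : ∃ b : ℚ, b = (((2 * (M + 1)).choose (M + 1) : ℕ) : ℚ) := ⟨_, rfl⟩
  obtain ⟨c1, hc1⟩ : ∃ b : ℚ, b = (((2 * (M + 1 + 1)).choose (M + 1 + 1) : ℕ) : ℚ) := ⟨_, rfl⟩
  have e2 : b2 = ((M : ℚ) + 1 + i) * b / ((M : ℚ) + 1) := by
    rw [eq_div_iff hM, hb2, hb]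
    linarith
  have e1 : ((i : ℚ) + 1) * b1 = ((M : ℚ) + 1 + i) * b := by
    rw [hb1, hb]
    exact h1
  unfold gg ff
  push_cast at h3 ⊢
  rw [← hb, ← hb1, ← hb2, ← hc, ← hc1]
  rw [← hc, ← hc1] at h3
  have e4 : ((i : ℚ) + 1) ^ 2 * b1 ^ 2 = (((M : ℚ) + 1 + i) * b) ^ 2 := by
    rw [← mul_pow, e1]
  have e5 : 4 * ((M : ℚ) + 1 + 1) * c1 * b2 ^ 2 = 4 * (2 * (2 * ((M : ℚ) + 1) + 1) * c) * b2 ^ 2 := by
    rw [← h3]
    ring
  rw [e5, e2]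
  have e6 : ((i : ℚ) + 1) ^ 2 * (2 * ((i : ℚ) + 1) + 3 * ((M : ℚ) + 1)) *
      (4 * ((M : ℚ) + 1) * c * b1 ^ 2) / ((M : ℚ) + 1) ^ 3 =
      (2 * ((i : ℚ) + 1) + 3 * ((M : ℚ) + 1)) *
      (4 * ((M : ℚ) + 1) * c * (((M : ℚ) + 1 + i) * b) ^ 2) / ((M : ℚ) + 1) ^ 3 := by
    rw [← e4]
    ring
  rw [e6]
  field_simp
  ring

lemma corner (M : ℕ) : ff (M + 1) (M + 1) + gg M (M + 1) - gg M 0 =
    (21 * ((M : ℚ) + 1) + 8) * (((2 * (M + 1)).choose (M + 1) : ℕ) : ℚ) ^ 3 := by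
  have h3 := c_up (M + 1)
  have h2 := b_up M (M + 1)
  have hM : ((M : ℚ) + 1) ≠ 0 := by positivity
  obtain ⟨c, hc⟩ : ∃ b : ℚ, b = (((2 * (M + 1)).choose (M + 1) : ℕ) : ℚ) := ⟨_, rfl⟩
  obtain ⟨c1, hc1⟩ : ∃ b : ℚ, b = (((2 * (M + 1 + 1)).choose (M + 1 + 1) : ℕ) : ℚ) := ⟨_, rfl⟩
  obtain ⟨b, hb⟩ : ∃ b : ℚ, b = (((M + (M + 1)).choose (M + 1) : ℕ) : ℚ) := ⟨_, rfl⟩
  have e0 : M + 1 + (M + 1) = 2 * (M + 1) := by omega
  rw [e0, ← hc, ← hb] at h2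
  have e1 : b = c / 2 := by
    push_cast at h2
    have : ((M : ℚ) + 1) * c = ((M : ℚ) + 1) * (2 * b) := by linarith
    have := mul_left_cancel₀ hM this
    linarith
  unfold gg ff
  rw [e0]
  push_cast at h3 ⊢
  rw [← hc, ← hc1, ← hb, e1]
  rw [← hc, ← hc1] at h3
  have e5 : 4 * ((M : ℚ) + 1 + 1) * c1 * c ^ 2 = 4 * (2 * (2 * ((M : ℚ) + 1) + 1) * c) * c ^ 2 := by
    rw [← h3]
    ring
  rw [e5]
  field_simp
  ring

lemma ident (M : ℕ) : ∑ k ∈ range (M + 1), (21 * (k : ℚ) + 8) * (((2 * k).choose k : ℕ) : ℚ) ^ 3 =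
    ∑ i ∈ range (M + 1), ff M i := by
  induction M with
  | zero =>
    rw [sum_range_one, sum_range_one]
    unfold ff
    norm_num
  | succ M ih =>
    rw [sum_range_succ, ih, sum_range_succ (fun i => ff (M + 1) i)]
    have h1 : ∑ i ∈ range (M + 1), ff (M + 1) i - ∑ i ∈ range (M + 1), ff M i =
        gg M (M + 1) - gg M 0 := by
      rw [← sum_sub_distrib, sum_congr rfl (fun i _ => wz M i), sum_range_sub]
    have h2 := corner M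
    push_cast at h2 ⊢
    linarith

/-- `C(p+j, j+1)` is divisible by `p` for `j + 1 < p` -/
lemma dvd_b {p : ℕ} (hp : p.Prime) {i : ℕ} (hi0 : 0 < i) (hi : i < p) :
    p ∣ (p - 1 + i).choose i := by
  obtain ⟨j, rfl⟩ : ∃ j, i = j + 1 := ⟨i - 1, by omega⟩
  have h := Nat.choose_succ_right_eq (p - 1 + (j + 1)) j
  have e : p - 1 + (j + 1) - j = p := by omega
  rw [e] at h
  have h1 : p ∣ (p - 1 + (j + 1)).choose (j + 1) * (j + 1) := by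
    rw [h]
    exact Dvd.intro_left _ rfl
  rcases (Nat.Prime.dvd_mul hp).1 h1 with h2 | h2
  · exact h2
  · exact absurd (Nat.le_of_dvd (by omega) h2) (by omega)

lemma central_mod {p : ℕ} (hp : p.Prime) : ∃ A : ℕ, (2 * p).choose p = 2 + p ^ 2 * A := by
  have h := Nat.sum_range_choose_sq p
  obtain ⟨q, rfl⟩ : ∃ q, p = q + 1 := ⟨p - 1, by have := hp.pos; omega⟩
  rw [sum_range_succ, sum_range_succ'] at h
  have h1 : (q + 1) ^ 2 ∣ ∑ k ∈ range q, (q + 1).choose (k + 1) ^ 2 := by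
    refine dvd_sum fun k hk => ?_
    have := mem_range.1 hk
    exact pow_dvd_pow_of_dvd (hp.dvd_choose_self (by omega) (by omega)) 2
  obtain ⟨A, hA⟩ := h1
  refine ⟨A, ?_⟩
  rw [← h, hA, Nat.choose_zero_right, Nat.choose_self]
  ring

theorem c21 : S_C21 := by
  intro p hp _
  have hpp : p.Prime := hp.out
  obtain ⟨q, hq⟩ : ∃ q, q = p - 1 := ⟨_, rfl⟩
  have hpq : p = q + 1 := by have := hpp.pos; omega
  obtain ⟨A, hA⟩ := central_mod hpp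
  have hB : ∃ B : ℕ, ∑ i ∈ range p, ((q + i).choose i) ^ 2 = 1 + p ^ 2 * B := by
    have h1 : p ^ 2 ∣ ∑ i ∈ range q, ((q + (i + 1)).choose (i + 1)) ^ 2 := by
      refine dvd_sum fun k hk => ?_
      have := mem_range.1 hk
      have h2 := dvd_b hpp (i := k + 1) (by omega) (by omega)
      rw [← hq] at h2
      exact pow_dvd_pow_of_dvd h2 2
    obtain ⟨B, hB⟩ := h1
    refine ⟨B, ?_⟩
    have e : range p = range (q + 1) := by rw [← hpq]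
    rw [e, sum_range_succ', hB, Nat.choose_zero_right]
    ring
  obtain ⟨B, hB⟩ := hB
  have h1 : ∑ k ∈ range p, (21 * (k : ℚ) + 8) * (((2 * k).choose k : ℕ) : ℚ) ^ 3 =
      4 * p * (2 + (p : ℚ) ^ 2 * A) * (1 + (p : ℚ) ^ 2 * B) := by
    have e : range p = range (q + 1) := by rw [← hpq]
    have h2 := ident q
    rw [← e] at h2
    rw [h2]
    have h3 : ∀ i, ff q i = 4 * (p : ℚ) * (2 + (p : ℚ) ^ 2 * A) * (((q + i).choose i : ℕ) : ℚ) ^ 2 := by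
      intro i
      unfold ff
      rw [← hpq, hA]
      have h4 : (q : ℚ) + 1 = p := by rw [hpq]; push_cast; rfl
      rw [h4]
      push_cast
      ring
    rw [sum_congr rfl (fun i _ => h3 i), ← mul_sum]
    congr 1
    exact_mod_cast hB
  refine ⟨((4 * (A + 2 * B + p ^ 2 * A * B) : ℕ) : ℚ), nat_mem _, ?_⟩
  rw [h1]
  push_cast
  ring

end Pool.Agent.H284.SUN35
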